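import Pool.Agent.Lib.MP_fa837f_gt.TS.Iface

/-!
# SIGN: the sign of the second summand in KID
-/

set_option autoImplicit false

namespace Pool.Agent.Lib.MP_fa837f_gt.TS.H94

open Pool.Agent.Lib.MP_fa837f_gt.TS

theorem form_nonneg {P m k ξ : ℝ} (hP : 0 ≤ P) (hk : k ≤ 0) (hm : m ^ 2 ≤ P * -k) :
    0 ≤ -(k + 2 * m * ξ - P * ξ ^ 2) := by
  rcases hP.eq_or_lt with h | h
  · subst h
    have hm0 : m = 0 := by
      have h1 : m ^ 2 ≤ 0 := by simpa using hm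
      exact pow_eq_zero_iff (two_ne_zero) |>.1 (le_antisymm h1 (sq_nonneg m))
    rw [hm0]
    linarith
  · have h1 : 0 ≤ P * -(k + 2 * m * ξ - P * ξ ^ 2) := by
      have h2 : P * -(k + 2 * m * ξ - P * ξ ^ 2) = (m - P * ξ) ^ 2 + (P * -k - m ^ 2) := by ring
      rw [h2]
      have := sq_nonneg (m - P * ξ)
      linarith
    exact nonneg_of_mul_nonneg_right h1 h

theorem sign : SignStatement := by
  intro p q a b P Q m n k l ξ hp0 hp1 hq0 hq1 hP hQ hk hl hm hn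
  have hu := form_nonneg (ξ := ξ) hP hk hm
  have hw := form_nonneg (ξ := ξ) hQ hl hn
  set u := -(k + 2 * m * ξ - P * ξ ^ 2) with hud
  set w := -(l + 2 * n * ξ - Q * ξ ^ 2) with hwd
  have hX : (m - P * ξ) ^ 2 ≤ P * u := by
    have h2 : P * u = (m - P * ξ) ^ 2 + (P * -k - m ^ 2) := by rw [hud]; ring
    linarith
  have hY : (n - Q * ξ) ^ 2 ≤ Q * w := by
    have h2 : Q * w = (n - Q * ξ) ^ 2 + (Q * -l - n ^ 2) := by rw [hwd]; ring
    linarith
  set X := m - P * ξ with hXd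
  set Y := n - Q * ξ with hYd
  have hQu : 0 ≤ Q * u := mul_nonneg hQ hu
  have hPw : 0 ≤ P * w := mul_nonneg hP hw
  have h3 : (2 * (X * Y)) ^ 2 ≤ (Q * u + P * w) ^ 2 := by
    have h4 : X ^ 2 * Y ^ 2 ≤ (P * u) * (Q * w) :=
      mul_le_mul hX hY (sq_nonneg Y) (mul_nonneg hP hu)
    have h5 : (2 * (X * Y)) ^ 2 = 4 * (X ^ 2 * Y ^ 2) := by ring
    have h6 : (Q * u + P * w) ^ 2 = 4 * ((P * u) * (Q * w)) + (Q * u - P * w) ^ 2 := by ring
    have h7 := sq_nonneg (Q * u - P * w)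
    rw [h5, h6]
    linarith
  have h8 : 2 * (X * Y) ≤ Q * u + P * w :=
    (le_abs_self _).trans (abs_le_of_sq_le_sq h3 (add_nonneg hQu hPw))
  have h9 : 0 ≤ q * (1 - q) * u := mul_nonneg (mul_nonneg hq0 (by linarith)) hu
  have h10 : 0 ≤ p * (1 - p) * w := mul_nonneg (mul_nonneg hp0 (by linarith)) hw
  have h11 : 0 ≤ p * q * ((1 - p - q) * ξ - a - b) ^ 2 :=
    mul_nonneg (mul_nonneg hp0 hq0) (sq_nonneg _)
  have h12 : (q * (1 - q) + Q) * u = q * (1 - q) * u + Q * u := by ring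
  have h13 : (p * (1 - p) + P) * w = p * (1 - p) * w + P * w := by ring
  rw [h12, h13]
  linarith

end Pool.Agent.Lib.MP_fa837f_gt.TS.H94
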